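import Mathlib

/-!
# Uniformity of spectral measures

If a finite measure has an orthonormal basis of exponentials, then a translate of the restriction
of the measure to a set of positive measure is not bounded by one half of the measure.
-/

set_option autoImplicit false

open Filter Topology MeasureTheory Set

namespace Pool.Agent.V5helper23.Overlap

variable {d : ℕ}

/-- The exponential with frequency `l`. -/
noncomputable def ex (l x : Fin d → ℝ) : ℂ :=
  Complex.exp (2 * Real.pi * Complex.I * ((∑ i, l i * x i : ℝ) : ℂ))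

theorem continuous_ex (l : Fin d → ℝ) : Continuous (ex l) := by
  unfold ex
  fun_prop

theorem norm_ex (l x : Fin d → ℝ) : ‖ex l x‖ = 1 := by
  unfold ex
  rw [show (2 * Real.pi * Complex.I * ((∑ i, l i * x i : ℝ) : ℂ))
    = ((2 * Real.pi * (∑ i, l i * x i) : ℝ) : ℂ) * Complex.I by push_cast; ring]
  exact Complex.norm_exp_ofReal_mul_I _

theorem ex_add (l x t : Fin d → ℝ) : ex l (x + t) = ex l x * ex l t := by
  unfold ex
  rw [← Complex.exp_add]
  congr 1
  simp only [Pi.add_apply, mul_add, Finset.sum_add_distrib]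
  push_cast
  ring

/-- `μ` has an orthonormal basis of exponentials. -/
def Spectral (μ : Measure (Fin d → ℝ)) : Prop :=
  ∃ (Λ : Set (Fin d → ℝ)) (e : Λ → Lp ℂ 2 μ),
      (∀ l : Λ, (e l : (Fin d → ℝ) → ℂ) =ᵐ[μ] fun x => ex (l : Fin d → ℝ) x) ∧
      Orthonormal ℂ e ∧ (Submodule.span ℂ (Set.range e)).topologicalClosure = ⊤

/-- Parseval: two functions with coefficients of the same modulus have the same norm. -/
theorem inner_self_eq_of_coeff {H : Type*} [NormedAddCommGroup H] [InnerProductSpace ℂ H]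
    [CompleteSpace H] {ι : Type*} {e : ι → H} (ho : Orthonormal ℂ e)
    (hs : (Submodule.span ℂ (Set.range e)).topologicalClosure = ⊤) (f g : H)
    (h : ∀ i, ‖inner ℂ (e i) f‖ = ‖inner ℂ (e i) g‖) : ‖f‖ = ‖g‖ := by
  let b := HilbertBasis.mk ho hs.ge
  have key : ∀ f : H, HasSum (fun i => ((‖inner ℂ (e i) f‖ ^ 2 : ℝ) : ℂ)) (inner ℂ f f) := by
    intro f
    have h1 := b.hasSum_inner_mul_inner f f
    have h2 : (fun i => inner ℂ f (b i) * inner ℂ (b i) f)
        = fun i => ((‖inner ℂ (e i) f‖ ^ 2 : ℝ) : ℂ) := by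
      funext i
      have h3 : b i = e i := by simp [b]
      rw [h3, ← inner_conj_symm f (e i), Complex.conj_mul']
      push_cast
      ring
    rwa [h2] at h1
  have h1 := key f
  have h2 := key g
  have h3 : (fun i => ((‖inner ℂ (e i) f‖ ^ 2 : ℝ) : ℂ))
      = fun i => ((‖inner ℂ (e i) g‖ ^ 2 : ℝ) : ℂ) := by
    funext i
    rw [h i]
  rw [h3] at h1
  have h4 := h1.unique h2
  rw [inner_self_eq_norm_sq_to_K, inner_self_eq_norm_sq_to_K] at h4
  have h5 : ‖f‖ ^ 2 = ‖g‖ ^ 2 := by exact_mod_cast h4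
  exact (sq_eq_sq₀ (norm_nonneg _) (norm_nonneg _)).mp h5

theorem measure_eq_zero_of_spectral {μ : Measure (Fin d → ℝ)} [IsFiniteMeasure μ]
    (hμ : Spectral μ) {E : Set (Fin d → ℝ)} (hE : MeasurableSet E) (t : Fin d → ℝ)
    (hle : (2 : ENNReal) • (μ.restrict E).map (fun x => x + t) ≤ μ) : μ E = 0 := by
  obtain ⟨Λ, e, he, ho, hs⟩ := hμ
  set ν : Measure (Fin d → ℝ) := (μ.restrict E).map (fun x => x + t) with hν
  have hmeas : Measurable (fun x : Fin d → ℝ => x + t) := measurable_id.add_const t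
  have hνfin : IsFiniteMeasure ν := by rw [hν]; infer_instance
  have hνle : ν ≤ μ := by
    refine le_trans ?_ hle
    intro s
    rw [Measure.smul_apply, smul_eq_mul, two_mul]
    exact le_self_add
  have hac : ν ≪ μ := Measure.absolutelyContinuous_of_le hνle
  have hdec : ν.HaveLebesgueDecomposition μ :=
    Measure.haveLebesgueDecomposition_of_sigmaFinite ν μ
  set g : (Fin d → ℝ) → ENNReal := ν.rnDeriv μ with hg
  have hgm : Measurable g := Measure.measurable_rnDeriv _ _
  have hg2 : ∀ᵐ x ∂μ, (g x).toReal ≤ 1 / 2 := by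
    have h1 := Measure.rnDeriv_le_one_of_le hle
    have h2 := Measure.rnDeriv_smul_left_of_ne_top' (ν := ν) (μ := μ) (r := (2 : ENNReal)) (by simp)
    filter_upwards [h1, h2] with x hx1 hx2
    have h3 : (2 : ENNReal) * g x ≤ 1 := by
      have : (2 : ENNReal) * g x = ((2 : ENNReal) • ν).rnDeriv μ x := by
        rw [hx2]; rfl
      rw [this]; exact hx1
    have h4 : ((2 : ENNReal) * g x).toReal ≤ 1 := by
      have := ENNReal.toReal_mono ENNReal.one_ne_top h3
      simpa using this
    rw [ENNReal.toReal_mul] at h4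
    have h5 : (2 : ENNReal).toReal = 2 := by simp
    rw [h5] at h4
    linarith
  have hg0 : ∀ x, 0 ≤ (g x).toReal := fun x => ENNReal.toReal_nonneg
  -- the two functions
  have hfL : MemLp (E.indicator fun _ => (1 : ℂ)) 2 μ := by
    apply MemLp.indicator hE
    exact memLp_const 1
  have hGL : MemLp (fun x => ((g x).toReal : ℂ)) 2 μ := by
    apply MemLp.of_bound (C := 1 / 2)
    · exact (Complex.measurable_ofReal.comp hgm.ennreal_toReal).aestronglyMeasurable
    · filter_upwards [hg2] with x hx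
      rw [Complex.norm_real, Real.norm_eq_abs, abs_of_nonneg (hg0 x)]
      exact hx
  have hcoef : ∀ l : Λ, ‖inner ℂ (e l) hfL.toLp‖ = ‖inner ℂ (e l) hGL.toLp‖ := by
    intro l
    have hI1 : inner ℂ (e l) hfL.toLp = ∫ x in E, (starRingEnd ℂ) (ex (l : Fin d → ℝ) x) ∂μ := by
      rw [L2.inner_def, ← integral_indicator hE]
      apply integral_congr_ae
      filter_upwards [he l, hfL.coeFn_toLp] with x h1 h2
      rw [h1, h2]
      by_cases hx : x ∈ E
      · simp [hx]
      · simp [hx]
    have hI2 : inner ℂ (e l) hGL.toLp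
        = ∫ x, (starRingEnd ℂ) (ex (l : Fin d → ℝ) x) ∂ν := by
      rw [L2.inner_def, ← integral_rnDeriv_smul hac]
      apply integral_congr_ae
      filter_upwards [he l, hGL.coeFn_toLp] with x h1 h2
      rw [h1, h2]
      simp only [RCLike.inner_apply, Complex.real_smul]
      rfl
    have hI3 : ∫ x, (starRingEnd ℂ) (ex (l : Fin d → ℝ) x) ∂ν
        = (∫ x in E, (starRingEnd ℂ) (ex (l : Fin d → ℝ) x) ∂μ) *
          (starRingEnd ℂ) (ex (l : Fin d → ℝ) t) := by
      rw [hν, integral_map hmeas.aemeasurable]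
      · rw [← integral_mul_const]
        congr 1
        funext x
        rw [ex_add, map_mul]
      · exact (Complex.continuous_conj.comp (continuous_ex _)).aestronglyMeasurable
    rw [hI1, hI2, hI3, norm_mul, RCLike.norm_conj, norm_ex, mul_one]
  have hnorm := inner_self_eq_of_coeff ho hs _ _ hcoef
  -- compute the norms
  have hn1 : ‖hfL.toLp‖ ^ 2 = (μ E).toReal := by
    have h1 : (inner ℂ hfL.toLp hfL.toLp : ℂ) = ((μ E).toReal : ℂ) := by
      rw [L2.inner_def]
      have h2 : ∫ x, inner ℂ ((hfL.toLp : Lp ℂ 2 μ) x) ((hfL.toLp : Lp ℂ 2 μ) x) ∂μ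
          = ∫ x in E, (1 : ℂ) ∂μ := by
        rw [← integral_indicator hE]
        apply integral_congr_ae
        filter_upwards [hfL.coeFn_toLp] with x h2
        rw [h2]
        by_cases hx : x ∈ E
        · simp [hx]
        · simp [hx]
      rw [h2, setIntegral_const]
      simp [Measure.real]
    rw [inner_self_eq_norm_sq_to_K] at h1
    have h3 : (((‖hfL.toLp‖ ^ 2 : ℝ)) : ℂ) = (((μ E).toReal : ℝ) : ℂ) := by
      rw [← h1]; push_cast; rfl
    exact Complex.ofReal_injective h3
  have hn2 : ‖hGL.toLp‖ ^ 2 ≤ 1 / 2 * (μ E).toReal := by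
    have h1 : (inner ℂ hGL.toLp hGL.toLp : ℂ) = ((∫ x, (g x).toReal ^ 2 ∂μ : ℝ) : ℂ) := by
      rw [L2.inner_def, ← integral_complex_ofReal]
      apply integral_congr_ae
      filter_upwards [hGL.coeFn_toLp] with x h2
      rw [h2]
      simp only [RCLike.inner_apply]
      push_cast
      rw [Complex.conj_ofReal]
      ring
    rw [inner_self_eq_norm_sq_to_K] at h1
    have h2 : ‖hGL.toLp‖ ^ 2 = ∫ x, (g x).toReal ^ 2 ∂μ := by
      have h3 : (((‖hGL.toLp‖ ^ 2 : ℝ)) : ℂ) = ((∫ x, (g x).toReal ^ 2 ∂μ : ℝ) : ℂ) := by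
        rw [← h1]; push_cast; rfl
      exact Complex.ofReal_injective h3
    have hint : Integrable (fun x => (g x).toReal) μ := Measure.integrable_toReal_rnDeriv
    rw [h2]
    calc ∫ x, (g x).toReal ^ 2 ∂μ ≤ ∫ x, 1 / 2 * (g x).toReal ∂μ := by
          apply integral_mono_ae
          · apply Integrable.mono' (hint.const_mul (1 / 2))
            · exact (hgm.ennreal_toReal.pow_const 2).aestronglyMeasurable
            · filter_upwards [hg2] with x hx
              rw [Real.norm_eq_abs, abs_of_nonneg (by positivity)]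
              nlinarith [hg0 x]
          · exact hint.const_mul _
          · filter_upwards [hg2] with x hx
            nlinarith [hg0 x]
      _ = 1 / 2 * ∫ x, (g x).toReal ∂μ := integral_const_mul _ _
      _ = 1 / 2 * (ν Set.univ).toReal := by
          rw [Measure.integral_toReal_rnDeriv hac]
          rfl
      _ = 1 / 2 * (μ E).toReal := by
          rw [hν, Measure.map_apply hmeas MeasurableSet.univ]
          simp
  rw [← hn1, hnorm] at hn2
  have h0 : ‖hGL.toLp‖ ^ 2 = 0 := by nlinarith [sq_nonneg ‖hGL.toLp‖]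
  rw [← hnorm, hn1] at h0
  exact (ENNReal.toReal_eq_zero_iff _).mp h0 |>.resolve_right (measure_ne_top _ _)

end Pool.Agent.V5helper23.Overlap
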