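import Mathlib

/-!
# Powers of the inverse of an expansive integer matrix tend to zero
-/

set_option autoImplicit false

open Matrix Filter Topology

namespace Pool.Agent.V5helper23.Overlap

/-- In a complex Banach algebra the powers of an element of spectral radius less than one tend
to zero. -/
theorem pow_tendsto_zero {B : Type*} [NormedRing B] [NormedAlgebra ℂ B] [CompleteSpace B]
    [Nontrivial B] (a : B) (h : ∀ z ∈ spectrum ℂ a, ‖z‖ < 1) :
    Tendsto (fun n : ℕ => ‖a ^ n‖) atTop (𝓝 0) := by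
  obtain ⟨z, hz, hzr⟩ := spectrum.exists_nnnorm_eq_spectralRadius a
  have hlt : spectralRadius ℂ a < 1 := by
    rw [← hzr]
    have := h z hz
    exact_mod_cast (show ‖z‖₊ < 1 from this)
  obtain ⟨r, hr1, hr2⟩ := exists_between hlt
  have hlim := spectrum.pow_nnnorm_pow_one_div_tendsto_nhds_spectralRadius a
  have hev : ∀ᶠ n : ℕ in atTop, ((‖a ^ n‖₊ : ENNReal)) ≤ r ^ n := by
    filter_upwards [hlim.eventually (gt_mem_nhds hr1), eventually_gt_atTop 0] with n hn hn0
    have hn' : ((‖a ^ n‖₊ : ENNReal) ^ (1 / (n : ℝ))) ^ (n : ℝ) ≤ r ^ (n : ℝ) :=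
      ENNReal.rpow_le_rpow hn.le (by positivity)
    rw [← ENNReal.rpow_mul, one_div, inv_mul_cancel₀ (by positivity), ENNReal.rpow_one,
      ENNReal.rpow_natCast] at hn'
    exact hn'
  have h0 : Tendsto (fun n : ℕ => ((‖a ^ n‖₊ : ENNReal))) atTop (𝓝 0) :=
    tendsto_of_tendsto_of_tendsto_of_le_of_le' tendsto_const_nhds
      (ENNReal.tendsto_pow_atTop_nhds_zero_of_lt_one hr2) (Eventually.of_forall fun n => bot_le)
      hev
  have h1 : Tendsto (fun n : ℕ => ‖a ^ n‖₊) atTop (𝓝 0) := by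
    have := h0
    rw [← ENNReal.coe_zero] at this
    exact ENNReal.tendsto_coe.mp this
  have h2 := NNReal.tendsto_coe.mpr h1
  simpa using h2

section

variable {d : ℕ}

/-- The real matrix given by an integer matrix. -/
noncomputable abbrev toReal (R : Matrix (Fin d) (Fin d) ℤ) : Matrix (Fin d) (Fin d) ℝ :=
  R.map (Int.castRingHom ℝ)

/-- All complex eigenvalues have modulus greater than one. -/
def Expansive (R : Matrix (Fin d) (Fin d) ℤ) : Prop :=
  ∀ z : ℂ, (R.map (Int.castRingHom ℂ)).charpoly.IsRoot z → 1 < ‖z‖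

theorem isUnit_det_complex {R : Matrix (Fin d) (Fin d) ℤ} (hR : Expansive R) :
    IsUnit (R.map (Int.castRingHom ℂ)).det := by
  rw [isUnit_iff_ne_zero]
  intro h0
  have h1 : (R.map (Int.castRingHom ℂ)).charpoly.IsRoot 0 := by
    rw [← Matrix.mem_spectrum_iff_isRoot_charpoly, spectrum.zero_mem_iff,
      Matrix.isUnit_iff_isUnit_det, h0]
    exact not_isUnit_zero
  have := hR 0 h1
  simp at this
  linarith

theorem det_ne_zero {R : Matrix (Fin d) (Fin d) ℤ} (hR : Expansive R) : R.det ≠ 0 := by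
  intro h0
  have h := isUnit_det_complex hR
  have h2 : (R.map (Int.castRingHom ℂ)).det = (Int.castRingHom ℂ) R.det := by
    rw [RingHom.map_det]; rfl
  rw [h2, h0] at h
  simp at h

theorem isUnit_det_real {R : Matrix (Fin d) (Fin d) ℤ} (hR : Expansive R) :
    IsUnit (toReal R).det := by
  rw [isUnit_iff_ne_zero]
  have h2 : (toReal R).det = (Int.castRingHom ℝ) R.det := by
    rw [RingHom.map_det]; rfl
  rw [h2]
  simpa using det_ne_zero hR

open scoped Matrix.Norms.Operator

/-- The entries of the powers of the inverse tend to zero. -/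
theorem inv_pow_tendsto {R : Matrix (Fin d) (Fin d) ℤ} (hR : Expansive R) :
    Tendsto (fun n : ℕ => ‖(toReal R)⁻¹ ^ n‖) atTop (𝓝 0) := by
  rcases Nat.eq_zero_or_pos d with hd | hd
  · subst hd
    have : ∀ n : ℕ, ‖(toReal R)⁻¹ ^ n‖ = 0 := by
      intro n
      have : (toReal R)⁻¹ ^ n = 0 := Subsingleton.elim _ _
      rw [this, norm_zero]
    simp only [this]
    exact tendsto_const_nhds
  have : Nonempty (Fin d) := ⟨⟨0, hd⟩⟩
  set C : Matrix (Fin d) (Fin d) ℂ := R.map (Int.castRingHom ℂ) with hC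
  have hCu := isUnit_det_complex hR
  have hlim : Tendsto (fun n : ℕ => ‖C⁻¹ ^ n‖) atTop (𝓝 0) := by
    apply pow_tendsto_zero
    intro z hz
    have hCC : C⁻¹ * C = 1 := Matrix.nonsing_inv_mul _ hCu
    have hCC' : C * C⁻¹ = 1 := Matrix.mul_nonsing_inv _ hCu
    let u : (Matrix (Fin d) (Fin d) ℂ)ˣ := ⟨C⁻¹, C, hCC, hCC'⟩
    have hz0 : z ≠ 0 := by
      rintro rfl
      exact (spectrum.zero_notMem_iff ℂ).mpr u.isUnit hz
    have h1 : ((Units.mk0 z hz0)⁻¹ : ℂˣ).1 ∈ spectrum ℂ (u⁻¹).1 := by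
      have := (spectrum.inv_mem_iff (r := Units.mk0 z hz0) (a := u)).mp hz
      exact this
    have h2 : z⁻¹ ∈ spectrum ℂ C := by
      simpa [u] using h1
    have h3 := hR _ (Matrix.mem_spectrum_iff_isRoot_charpoly.mp h2)
    rw [norm_inv] at h3
    exact (one_lt_inv₀ (norm_pos_iff.mpr hz0)).mp h3
  have hmap : ∀ n : ℕ, ‖(toReal R)⁻¹ ^ n‖ = ‖C⁻¹ ^ n‖ := by
    intro n
    have hinv : (toReal R)⁻¹.map (algebraMap ℝ ℂ) = C⁻¹ := by
      have h1 : (toReal R).map (algebraMap ℝ ℂ) = C := by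
        ext i j
        simp [hC]
      have h2 : C * (toReal R)⁻¹.map (algebraMap ℝ ℂ) = 1 := by
        rw [← h1, ← Matrix.map_mul, Matrix.mul_nonsing_inv _ (isUnit_det_real hR)]
        simp
      exact (Matrix.inv_eq_right_inv h2).symm
    have hpow : ((toReal R)⁻¹ ^ n).map (algebraMap ℝ ℂ) = C⁻¹ ^ n := by
      rw [← hinv]
      exact Matrix.map_pow _ _ _
    rw [← hpow]
    simp only [Matrix.linfty_opNorm_def]
    congr 1
    simp
  simp only [hmap]
  exact hlim

end

end Pool.Agent.V5helper23.Overlap
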