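import Mathlib
import Pool.Agent.V5helper23.Overlap.Pow

/-!
# Words, cylinder maps and the invariant measure of an integral self-affine system
-/

set_option autoImplicit false

open Matrix Filter Topology MeasureTheory Set

namespace Pool.Agent.V5helper23.Overlap

variable {d : ℕ}

/-- The real vector given by an integer vector. -/
def vec (b : Fin d → ℤ) : Fin d → ℝ := fun i => (b i : ℝ)

@[simp] theorem vec_zero : vec (0 : Fin d → ℤ) = 0 := by
  ext i; simp [vec]

theorem vec_add (a b : Fin d → ℤ) : vec (a + b) = vec a + vec b := by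
  ext i; simp [vec]

theorem vec_sub (a b : Fin d → ℤ) : vec (a - b) = vec a - vec b := by
  ext i; simp [vec]

theorem vec_injective : Function.Injective (vec : (Fin d → ℤ) → Fin d → ℝ) := by
  intro a b h
  ext i
  have := congrFun h i
  simpa [vec] using this

theorem toReal_mulVec_vec (M : Matrix (Fin d) (Fin d) ℤ) (b : Fin d → ℤ) :
    toReal M *ᵥ vec b = vec (M *ᵥ b) := by
  ext i
  simp [vec, toReal, Matrix.mulVec, dotProduct]

theorem toReal_pow (M : Matrix (Fin d) (Fin d) ℤ) (n : ℕ) : toReal (M ^ n) = toReal M ^ n :=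
  Matrix.map_pow _ _ _

/-- The integer translation vector of a word. -/
def code (R : Matrix (Fin d) (Fin d) ℤ) : List (Fin d → ℤ) → (Fin d → ℤ)
  | [] => 0
  | b :: w => R ^ w.length *ᵥ b + code R w

/-- The map of the digit `b`. -/
noncomputable def phi (R : Matrix (Fin d) (Fin d) ℤ) (b : Fin d → ℤ) (x : Fin d → ℝ) :
    Fin d → ℝ :=
  (toReal R)⁻¹ *ᵥ (x + vec b)

/-- The map of a word. -/
noncomputable def Phi (R : Matrix (Fin d) (Fin d) ℤ) (w : List (Fin d → ℤ)) (x : Fin d → ℝ) :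
    Fin d → ℝ :=
  (toReal R)⁻¹ ^ w.length *ᵥ (x + vec (code R w))

section

variable {R : Matrix (Fin d) (Fin d) ℤ} (hR : Expansive R)

@[simp] theorem Phi_nil (x : Fin d → ℝ) : Phi R [] x = x := by
  simp [Phi, code]

include hR in
theorem inv_pow_mul_pow (n : ℕ) : (toReal R)⁻¹ ^ n * toReal R ^ n = 1 := by
  have h := isUnit_det_real hR
  induction n with
  | zero => simp
  | succ n ih =>
    rw [pow_succ, pow_succ', mul_assoc, ← mul_assoc (toReal R)⁻¹ (toReal R),
      Matrix.nonsing_inv_mul _ h, one_mul, ih]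

include hR in
theorem inv_pow_mulVec_vec (n : ℕ) (b : Fin d → ℤ) :
    (toReal R)⁻¹ ^ n *ᵥ vec (R ^ n *ᵥ b) = vec b := by
  rw [← toReal_mulVec_vec, toReal_pow, Matrix.mulVec_mulVec, inv_pow_mul_pow hR, one_mulVec]

include hR in
theorem inv_pow_mulVec_injective (n : ℕ) :
    Function.Injective (fun x : Fin d → ℝ => (toReal R)⁻¹ ^ n *ᵥ x) := by
  intro x y h
  have h1 : toReal R ^ n *ᵥ ((toReal R)⁻¹ ^ n *ᵥ x) = toReal R ^ n *ᵥ ((toReal R)⁻¹ ^ n *ᵥ y) := by
    simp only at h
    rw [h]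
  have h2 : toReal R ^ n * (toReal R)⁻¹ ^ n = 1 := by
    have := inv_pow_mul_pow hR n
    exact mul_eq_one_comm.mp this
  rwa [Matrix.mulVec_mulVec, Matrix.mulVec_mulVec, h2, one_mulVec, one_mulVec] at h1

include hR in
theorem Phi_cons (b : Fin d → ℤ) (w : List (Fin d → ℤ)) (x : Fin d → ℝ) :
    Phi R (b :: w) x = phi R b (Phi R w x) := by
  simp only [Phi, phi, code, List.length_cons]
  rw [pow_succ', ← Matrix.mulVec_mulVec]
  congr 1
  rw [vec_add, show x + (vec (R ^ w.length *ᵥ b) + vec (code R w))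
    = (x + vec (code R w)) + vec (R ^ w.length *ᵥ b) by abel, Matrix.mulVec_add,
    inv_pow_mulVec_vec hR]

include hR in
theorem Phi_append (v w : List (Fin d → ℤ)) (x : Fin d → ℝ) :
    Phi R (v ++ w) x = Phi R v (Phi R w x) := by
  induction v with
  | nil => simp
  | cons b v ih => rw [List.cons_append, Phi_cons hR, Phi_cons hR, ih]

include hR in
theorem Phi_singleton (b : Fin d → ℤ) (x : Fin d → ℝ) : Phi R [b] x = phi R b x := by
  rw [Phi_cons hR, Phi_nil]

theorem continuous_Phi (w : List (Fin d → ℤ)) : Continuous (Phi R w) := by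
  unfold Phi
  exact Continuous.matrix_mulVec continuous_const (continuous_id.add continuous_const)

theorem continuous_phi (b : Fin d → ℤ) : Continuous (phi R b) := by
  unfold phi
  exact Continuous.matrix_mulVec continuous_const (continuous_id.add continuous_const)

/-- Difference of two cylinder maps of the same length. -/
theorem Phi_shift {v w : List (Fin d → ℤ)} (h : v.length = w.length) (x : Fin d → ℝ) :
    Phi R v (x + vec (code R w - code R v)) = Phi R w x := by
  simp only [Phi]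
  rw [h, vec_sub]
  congr 1
  abel

include hR in
theorem Phi_injective (w : List (Fin d → ℤ)) : Function.Injective (Phi R w) := by
  intro x y h
  have := inv_pow_mulVec_injective hR _ h
  simpa using this

end

/-- The data of the problem. -/
structure Setup (R : Matrix (Fin d) (Fin d) ℤ) (B : Finset (Fin d → ℤ))
    (μ : Measure (Fin d → ℝ)) (T : Set (Fin d → ℝ)) : Prop where
  exp : Expansive R
  prob : IsProbabilityMeasure μ
  inv : μ = ∑ b ∈ B, ((B.card : ENNReal)⁻¹) • μ.map (phi R b)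
  cpt : IsCompact T
  ne : T.Nonempty
  att : T = ⋃ b ∈ B, phi R b '' T

/-- The list of the letters of a word. -/
def toL {B : Finset (Fin d → ℤ)} {n : ℕ} (w : Fin n → B) : List (Fin d → ℤ) :=
  List.ofFn fun i => (w i).1

@[simp] theorem length_toL {B : Finset (Fin d → ℤ)} {n : ℕ} (w : Fin n → B) :
    (toL w).length = n := by simp [toL]

theorem toL_cons {B : Finset (Fin d → ℤ)} {n : ℕ} (b : B) (w : Fin n → B) :
    toL (Fin.cons b w : Fin (n + 1) → B) = b.1 :: toL w := by
  simp [toL, List.ofFn_succ]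

theorem exists_toL {B : Finset (Fin d → ℤ)} (l : List (Fin d → ℤ)) (hl : ∀ b ∈ l, b ∈ B) :
    ∃ w : Fin l.length → B, toL w = l := by
  refine ⟨fun i => ⟨l.get i, hl _ (List.get_mem _ _)⟩, ?_⟩
  simp [toL]

theorem mem_toL {B : Finset (Fin d → ℤ)} {n : ℕ} (w : Fin n → B) : ∀ b ∈ toL w, b ∈ B := by
  intro b hb
  simp only [toL, List.mem_ofFn] at hb
  obtain ⟨i, rfl⟩ := hb
  exact (w i).2

namespace Setup

variable {R : Matrix (Fin d) (Fin d) ℤ} {B : Finset (Fin d → ℤ)}
    {μ : Measure (Fin d → ℝ)} {T : Set (Fin d → ℝ)} (S : Setup R B μ T)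

include S

theorem card_ne_zero : (B.card : ENNReal) ≠ 0 := by
  intro h
  have hB : B = ∅ := by
    rw [← Finset.card_eq_zero]
    exact_mod_cast h
  have h1 := S.inv
  have h2 : μ Set.univ = 1 := S.prob.measure_univ
  rw [h1, hB] at h2
  simp at h2

theorem inv_apply {s : Set (Fin d → ℝ)} (hs : MeasurableSet s) :
    μ s = ∑ b : B, (B.card : ENNReal)⁻¹ * μ (phi R b ⁻¹' s) := by
  conv_lhs => rw [S.inv]
  rw [Measure.finsetSum_apply, ← Finset.sum_coe_sort]
  refine Finset.sum_congr rfl fun b _ => ?_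
  rw [Measure.smul_apply, smul_eq_mul, Measure.map_apply (continuous_phi _).measurable hs]

theorem iter_apply (n : ℕ) {s : Set (Fin d → ℝ)} (hs : MeasurableSet s) :
    μ s = ∑ w : Fin n → B, ((B.card : ENNReal)⁻¹) ^ n * μ (Phi R (toL w) ⁻¹' s) := by
  induction n generalizing s with
  | zero =>
    rw [Fintype.sum_unique]
    simp only [pow_zero, one_mul, toL, List.ofFn_zero]
    congr 1
    ext x
    simp
  | succ n ih =>
    rw [S.inv_apply hs, ← (Fin.consEquiv (fun _ : Fin (n + 1) => B)).sum_comp,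
      Fintype.sum_prod_type]
    refine Finset.sum_congr rfl fun b _ => ?_
    rw [ih ((continuous_phi _).measurable hs), Finset.mul_sum]
    refine Finset.sum_congr rfl fun w _ => ?_
    have h1 : toL ((Fin.consEquiv (fun _ : Fin (n + 1) => B)) (b, w)) = b.1 :: toL w :=
      toL_cons b w
    rw [h1, ← mul_assoc, ← pow_succ']
    congr 2
    ext x
    simp only [mem_preimage]
    rw [Phi_cons S.exp]

theorem card_words_mul (n : ℕ) (c : ENNReal) :
    ∑ _w : Fin n → B, ((B.card : ENNReal)⁻¹) ^ n * c = c := by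
  rw [Finset.sum_const, nsmul_eq_mul, Finset.card_univ, Fintype.card_fun, Fintype.card_fin,
    Fintype.card_coe, Nat.cast_pow, ← mul_assoc, ← mul_pow,
    ENNReal.mul_inv_cancel S.card_ne_zero (ENNReal.natCast_ne_top _), one_pow, one_mul]

theorem phi_mem {b : Fin d → ℤ} (hb : b ∈ B) {x : Fin d → ℝ} (hx : x ∈ T) : phi R b x ∈ T := by
  rw [S.att]
  exact mem_biUnion hb (mem_image_of_mem _ hx)

theorem Phi_mem {l : List (Fin d → ℤ)} (hl : ∀ b ∈ l, b ∈ B) {x : Fin d → ℝ} (hx : x ∈ T) :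
    Phi R l x ∈ T := by
  induction l with
  | nil => simpa using hx
  | cons b l ih =>
    rw [Phi_cons S.exp]
    exact S.phi_mem (hl b (by simp)) (ih fun c hc => hl c (by simp [hc]))

theorem exists_phi {x : Fin d → ℝ} (hx : x ∈ T) : ∃ b : B, ∃ y ∈ T, x = phi R b y := by
  rw [S.att] at hx
  simp only [mem_iUnion, mem_image] at hx
  obtain ⟨b, hb, y, hy, rfl⟩ := hx
  exact ⟨⟨b, hb⟩, y, hy, rfl⟩

theorem exists_Phi (n : ℕ) {x : Fin d → ℝ} (hx : x ∈ T) :
    ∃ w : Fin n → B, ∃ y ∈ T, x = Phi R (toL w) y := by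
  induction n generalizing x with
  | zero =>
    refine ⟨Fin.elim0, x, hx, ?_⟩
    simp [toL]
  | succ n ih =>
    obtain ⟨b, y, hy, rfl⟩ := S.exists_phi hx
    obtain ⟨w, z, hz, rfl⟩ := ih hy
    exact ⟨Fin.cons b w, z, hz, by rw [toL_cons, Phi_cons S.exp]⟩

open scoped Matrix.Norms.Operator in
omit S in
theorem dist_Phi_le (w : List (Fin d → ℤ)) (x y : Fin d → ℝ) :
    dist (Phi R w x) (Phi R w y) ≤ ‖(toReal R)⁻¹ ^ w.length‖ * dist x y := by
  simp only [Phi, dist_eq_norm]
  rw [← Matrix.mulVec_sub]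
  refine (Matrix.linfty_opNorm_mulVec _ _).trans (le_of_eq ?_)
  congr 2
  abel

open scoped Matrix.Norms.Operator in
theorem small (D ε : ℝ) (hε : 0 < ε) :
    ∃ n₀ : ℕ, ∀ n ≥ n₀, ∀ w : Fin n → B, ∀ x y : Fin d → ℝ, dist x y ≤ D →
      dist (Phi R (toL w) x) (Phi R (toL w) y) < ε := by
  have h := inv_pow_tendsto S.exp
  have h1 : ∀ᶠ n : ℕ in atTop, ‖(toReal R)⁻¹ ^ n‖ < ε / (|D| + 1) :=
    h.eventually (gt_mem_nhds (by positivity))
  obtain ⟨n₀, hn₀⟩ := eventually_atTop.mp h1
  refine ⟨n₀, fun n hn w x y hxy => ?_⟩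
  refine (dist_Phi_le _ _ _).trans_lt ?_
  rw [length_toL]
  have h2 := hn₀ n hn
  have h3 : dist x y ≤ |D| := hxy.trans (le_abs_self D)
  calc _ ≤ ‖(toReal R)⁻¹ ^ n‖ * |D| := by gcongr
    _ ≤ ε / (|D| + 1) * |D| := by gcongr
    _ < ε := by
      rw [div_mul_eq_mul_div, div_lt_iff₀ (by positivity)]
      nlinarith [abs_nonneg D]

theorem measure_compl : μ Tᶜ = 0 := by
  have hprob := S.prob
  obtain ⟨x₀, hx₀⟩ := S.ne
  -- the measure of the complement of large balls tends to zero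
  have hball : Tendsto (fun r : ℕ => μ (Metric.closedBall x₀ (r : ℝ))ᶜ) atTop (𝓝 0) := by
    have h1 : Antitone fun r : ℕ => (Metric.closedBall x₀ (r : ℝ))ᶜ := by
      intro r s hrs
      exact compl_subset_compl.mpr (Metric.closedBall_subset_closedBall (by exact_mod_cast hrs))
    have h2 := tendsto_measure_iInter_atTop (μ := μ)
      (fun r : ℕ => (Metric.isClosed_closedBall (x := x₀) (ε := (r : ℝ))).measurableSet.compl.nullMeasurableSet)
      h1 ⟨0, measure_ne_top _ _⟩
    have h3 : (⋂ r : ℕ, (Metric.closedBall x₀ (r : ℝ))ᶜ) = ∅ := by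
      rw [← compl_iUnion, compl_empty_iff]
      refine eq_univ_of_forall fun x => ?_
      obtain ⟨n, hn⟩ := exists_nat_ge (dist x x₀)
      exact mem_iUnion.mpr ⟨n, Metric.mem_closedBall.mpr hn⟩
    rw [h3, measure_empty] at h2
    exact h2
  have hthick : ∀ δ : ℝ, 0 < δ → μ (Metric.cthickening δ T)ᶜ = 0 := by
    intro δ hδ
    have hle : ∀ r : ℕ, μ (Metric.cthickening δ T)ᶜ ≤ μ (Metric.closedBall x₀ (r : ℝ))ᶜ := by
      intro r
      obtain ⟨n₀, hn₀⟩ := S.small r δ hδ
      rw [S.iter_apply n₀ Metric.isClosed_cthickening.measurableSet.compl]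
      calc _ ≤ ∑ _w : Fin n₀ → B, ((B.card : ENNReal)⁻¹) ^ n₀ *
              μ (Metric.closedBall x₀ (r : ℝ))ᶜ := by
            refine Finset.sum_le_sum fun w _ => ?_
            gcongr
            intro x hx hxr
            apply hx
            have h1 := hn₀ n₀ le_rfl w x x₀ (Metric.mem_closedBall.mp hxr)
            exact Metric.mem_cthickening_of_dist_le _ _ _ _ (S.Phi_mem (mem_toL w) hx₀) h1.le
        _ = _ := S.card_words_mul _ _
    exact le_antisymm (ge_of_tendsto' hball hle) bot_le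
  have hT : Tᶜ = ⋃ k : ℕ, (Metric.cthickening (1 / ((k : ℝ) + 1)) T)ᶜ := by
    rw [← compl_iInter]
    congr 1
    have h1 : T = ⋂ k : ℕ, Metric.cthickening (1 / ((k : ℝ) + 1)) T := by
      apply subset_antisymm
      · exact subset_iInter fun k => Metric.self_subset_cthickening _
      · intro x hx
        rw [← S.cpt.isClosed.closure_eq, Metric.mem_closure_iff_infEDist_zero]
        rw [mem_iInter] at hx
        have h2 : ∀ k : ℕ, Metric.infEDist x T ≤ ENNReal.ofReal (1 / ((k : ℝ) + 1)) := fun k =>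
          Metric.mem_cthickening_iff.mp (hx k)
        have h3 : Tendsto (fun k : ℕ => ENNReal.ofReal (1 / ((k : ℝ) + 1))) atTop (𝓝 0) := by
          rw [← ENNReal.ofReal_zero]
          exact ENNReal.tendsto_ofReal tendsto_one_div_add_atTop_nhds_zero_nat
        exact le_antisymm (ge_of_tendsto' h3 h2) bot_le
    exact h1
  rw [hT, measure_iUnion_null_iff]
  exact fun k => hthick _ (by positivity)

theorem measure_T : μ T = 1 := by
  have hprob := S.prob
  have h := S.measure_compl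
  rwa [prob_compl_eq_zero_iff S.cpt.isClosed.measurableSet] at h

theorem measure_zero_of_disjoint {s : Set (Fin d → ℝ)} (h : ∀ x ∈ T, x ∉ s) : μ s = 0 :=
  measure_mono_null (fun x hx hxT => h x hxT hx) S.measure_compl

/-- Every open set that meets `T` has positive measure; even more, it contains a cylinder. -/
theorem exists_cylinder {U : Set (Fin d → ℝ)} (hU : IsOpen U) {x : Fin d → ℝ} (hxT : x ∈ T)
    (hxU : x ∈ U) : ∃ n₀ : ℕ, ∀ n ≥ n₀, ∃ w : Fin n → B, ∀ y ∈ T, Phi R (toL w) y ∈ U := by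
  obtain ⟨ε, hε, hεU⟩ := Metric.isOpen_iff.mp hU x hxU
  obtain ⟨n₀, hn₀⟩ := S.small (Metric.diam T) ε hε
  refine ⟨n₀, fun n hn => ?_⟩
  obtain ⟨w, y, hy, rfl⟩ := S.exists_Phi n hxT
  refine ⟨w, fun z hz => hεU ?_⟩
  exact hn₀ n hn w z y (Metric.dist_le_diam_of_mem S.cpt.isBounded hz hy)

theorem measure_pos {U : Set (Fin d → ℝ)} (hU : IsOpen U) {x : Fin d → ℝ} (hxT : x ∈ T)
    (hxU : x ∈ U) : μ U ≠ 0 := by
  obtain ⟨n₀, hn₀⟩ := S.exists_cylinder hU hxT hxU
  obtain ⟨w, hw⟩ := hn₀ n₀ le_rfl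
  have h1 : ((B.card : ENNReal)⁻¹) ^ n₀ * μ (Phi R (toL w) ⁻¹' U) ≤ μ U := by
    rw [S.iter_apply n₀ hU.measurableSet]
    exact Finset.single_le_sum
      (f := fun w : Fin n₀ → B => ((B.card : ENNReal)⁻¹) ^ n₀ * μ (Phi R (toL w) ⁻¹' U))
      (fun _ _ => bot_le) (Finset.mem_univ w)
  have h2 : μ T ≤ μ (Phi R (toL w) ⁻¹' U) := measure_mono fun y hy => hw y hy
  rw [S.measure_T] at h2
  intro h0
  rw [h0] at h1
  have h3 : ((B.card : ENNReal)⁻¹) ^ n₀ * μ (Phi R (toL w) ⁻¹' U) = 0 := le_antisymm h1 bot_le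
  rcases mul_eq_zero.mp h3 with h4 | h4
  · rcases Nat.eq_zero_or_pos n₀ with h6 | h6
    · subst h6
      simp at h4
    · have := (pow_eq_zero_iff h6.ne').mp h4
      exact ENNReal.natCast_ne_top _ (ENNReal.inv_eq_zero.mp this)
  · rw [h4] at h2
    exact absurd h2 (by simp)

end Setup

end Pool.Agent.V5helper23.Overlap
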