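import Mathlib
import Pool.Agent.V5helper23.Overlap.Words
import Pool.Agent.V5helper23.Overlap.Parseval

/-!
# Spectral self-affine measures have no exact overlaps

Near an exposed point of the attractor (for a generic linear functional) only one cylinder of a
given level is present. If two different words had the same map, then a translate of the measure
near this point would be at most one half of the measure, which contradicts Parseval.
-/

set_option autoImplicit false

open Matrix Filter Topology MeasureTheory Set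

namespace Pool.Agent.V5helper23.Overlap

variable {d : ℕ}

namespace Setup

variable {R : Matrix (Fin d) (Fin d) ℤ} {B : Finset (Fin d → ℤ)}
    {μ : Measure (Fin d → ℝ)} {T : Set (Fin d → ℝ)} (S : Setup R B μ T)

include S

/-- Only one word leads to a maximum of a generic linear functional. -/
theorem unique_max (n : ℕ) (ℓ : (Fin d → ℝ) →ₗ[ℝ] ℝ)
    (hℓ : ∀ k, k < n → ∀ b b' : B, ℓ ((toReal R)⁻¹ ^ (k + 1) *ᵥ vec b)
      = ℓ ((toReal R)⁻¹ ^ (k + 1) *ᵥ vec b') → b = b')
    (w w' : Fin n → B) {x x' : Fin d → ℝ} (hx : x ∈ T) (hx' : x' ∈ T)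
    (h : ∀ y ∈ T, ℓ y ≤ ℓ (Phi R (toL w) x)) (h' : ∀ y ∈ T, ℓ y ≤ ℓ (Phi R (toL w') x')) :
    w = w' := by
  induction n generalizing ℓ with
  | zero => exact Subsingleton.elim _ _
  | succ n ih =>
    obtain ⟨⟨b, v⟩, rfl⟩ := (Fin.consEquiv (fun _ : Fin (n + 1) => B)).surjective w
    obtain ⟨⟨b', v'⟩, rfl⟩ := (Fin.consEquiv (fun _ : Fin (n + 1) => B)).surjective w'
    have e1 : toL ((Fin.consEquiv (fun _ : Fin (n + 1) => B)) (b, v)) = b.1 :: toL v :=
      toL_cons b v
    have e2 : toL ((Fin.consEquiv (fun _ : Fin (n + 1) => B)) (b', v')) = b'.1 :: toL v' :=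
      toL_cons b' v'
    rw [e1, Phi_cons S.exp] at h
    rw [e2, Phi_cons S.exp] at h'
    set y := Phi R (toL v) x with hy
    set y' := Phi R (toL v') x' with hy'
    have hyT : y ∈ T := S.Phi_mem (mem_toL v) hx
    have hyT' : y' ∈ T := S.Phi_mem (mem_toL v') hx'
    have hphi : ∀ (c : B) (z : Fin d → ℝ), ℓ (phi R c z) = ℓ ((toReal R)⁻¹ *ᵥ z)
        + ℓ ((toReal R)⁻¹ *ᵥ vec c) := by
      intro c z
      rw [phi, Matrix.mulVec_add, map_add]
    have hb : b = b' := by
      apply hℓ 0 (Nat.succ_pos n)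
      simp only [zero_add, pow_one]
      apply le_antisymm
      · have := h' _ (S.phi_mem b.2 hyT')
        rw [hphi, hphi] at this
        linarith
      · have := h _ (S.phi_mem b'.2 hyT)
        rw [hphi, hphi] at this
        linarith
    let ℓ' : (Fin d → ℝ) →ₗ[ℝ] ℝ := ℓ.comp (Matrix.mulVecLin (toReal R)⁻¹)
    have hv : v = v' := by
      apply ih ℓ'
      · intro k hk c c' hcc
        apply hℓ (k + 1) (by omega)
        simp only [ℓ', LinearMap.comp_apply, Matrix.mulVecLin_apply, Matrix.mulVec_mulVec,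
          ← pow_succ'] at hcc
        exact hcc
      · intro z hz
        have := h _ (S.phi_mem b.2 hz)
        rw [hphi, hphi] at this
        simp only [ℓ', LinearMap.comp_apply, Matrix.mulVecLin_apply]
        linarith
      · intro z hz
        have := h' _ (S.phi_mem b'.2 hz)
        rw [hphi, hphi] at this
        simp only [ℓ', LinearMap.comp_apply, Matrix.mulVecLin_apply]
        linarith
    rw [hb, hv]

/-- A generic linear functional. -/
theorem exists_functional (n : ℕ) : ∃ ℓ : (Fin d → ℝ) →ₗ[ℝ] ℝ,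
    ∀ k, k < n → ∀ b b' : B, ℓ ((toReal R)⁻¹ ^ (k + 1) *ᵥ vec b)
      = ℓ ((toReal R)⁻¹ ^ (k + 1) *ᵥ vec b') → b = b' := by
  classical
  let ι := Fin n × {p : B × B // p.1 ≠ p.2}
  let v : ι → (Fin d → ℝ) := fun i =>
    (toReal R)⁻¹ ^ ((i.1 : ℕ) + 1) *ᵥ (vec (i.2.1.1 : Fin d → ℤ) - vec (i.2.1.2 : Fin d → ℤ))
  have hv : ∀ i, v i ≠ 0 := by
    intro i h0
    have h1 := inv_pow_mulVec_injective S.exp ((i.1 : ℕ) + 1)
      (show (toReal R)⁻¹ ^ ((i.1 : ℕ) + 1) *ᵥ
        (vec (i.2.1.1 : Fin d → ℤ) - vec (i.2.1.2 : Fin d → ℤ))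
        = (toReal R)⁻¹ ^ ((i.1 : ℕ) + 1) *ᵥ 0 by rw [Matrix.mulVec_zero]; exact h0)
    exact i.2.2 (Subtype.ext (vec_injective (sub_eq_zero.mp h1)))
  let f : ι → Module.Dual ℝ (Fin d → ℝ) := fun i =>
    { toFun := fun u => u ⬝ᵥ v i
      map_add' := fun a b => add_dotProduct _ _ _
      map_smul' := fun c a => smul_dotProduct _ _ _ }
  obtain ⟨u, -, hu⟩ := Module.Dual.exists_forall_mem_ne_zero_of_forall_exists
    (⊤ : Submodule ℝ (Fin d → ℝ)) f (by
      intro i
      refine ⟨v i, trivial, ?_⟩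
      change v i ⬝ᵥ v i ≠ 0
      rw [Ne, dotProduct_self_eq_zero]
      exact hv i)
  let ℓ : (Fin d → ℝ) →ₗ[ℝ] ℝ :=
    { toFun := fun x => u ⬝ᵥ x
      map_add' := fun a b => dotProduct_add _ _ _
      map_smul' := fun c a => dotProduct_smul _ _ _ }
  refine ⟨ℓ, fun k hk b b' h => ?_⟩
  by_contra hne
  apply hu (⟨k, hk⟩, ⟨(b, b'), hne⟩)
  change u ⬝ᵥ ((toReal R)⁻¹ ^ (k + 1) *ᵥ (vec (b : Fin d → ℤ) - vec (b' : Fin d → ℤ))) = 0
  rw [Matrix.mulVec_sub, dotProduct_sub]
  exact sub_eq_zero.mpr h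

/-- For every level there are a word and an open set that meets the attractor, and that contains
no points of the cylinders of the other words of the same level. -/
theorem exists_isolated (n : ℕ) : ∃ w₀ : Fin n → B, ∃ U : Set (Fin d → ℝ), IsOpen U ∧
    (∃ x ∈ T, x ∈ U) ∧ ∀ w : Fin n → B, w ≠ w₀ → ∀ x ∈ T, Phi R (toL w) x ∉ U := by
  classical
  obtain ⟨ℓ, hℓ⟩ := S.exists_functional n
  have hcont : Continuous ℓ := ℓ.continuous_of_finiteDimensional
  obtain ⟨x₀, hx₀, hmax⟩ := S.cpt.exists_isMaxOn S.ne hcont.continuousOn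
  have hmax' : ∀ y ∈ T, ℓ y ≤ ℓ x₀ := fun y hy => hmax hy
  obtain ⟨w₀, y₀, hy₀, hxy⟩ := S.exists_Phi n hx₀
  have hw : ∀ w : Fin n → B, ∃ c : ℝ, c < ℓ x₀ ∧ (w ≠ w₀ → ∀ x ∈ T, ℓ (Phi R (toL w) x) ≤ c) := by
    intro w
    by_cases hww : w = w₀
    · exact ⟨ℓ x₀ - 1, by linarith, fun h => absurd hww h⟩
    obtain ⟨z, hz, hzmax⟩ := S.cpt.exists_isMaxOn S.ne
      ((hcont.comp (continuous_Phi (R := R) (toL w))).continuousOn)
    refine ⟨ℓ (Phi R (toL w) z), ?_, fun _ x hx => hzmax hx⟩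
    refine lt_of_le_of_ne (hmax' _ (S.Phi_mem (mem_toL w) hz)) fun heq => ?_
    apply hww
    refine S.unique_max n ℓ hℓ w w₀ hz hy₀ ?_ ?_
    · intro y hy; rw [heq]; exact hmax' y hy
    · intro y hy; rw [← hxy]; exact hmax' y hy
  choose c hc1 hc2 using hw
  obtain ⟨C, hC1, hC2⟩ : ∃ C : ℝ, C < ℓ x₀ ∧ ∀ w, c w ≤ C := by
    have hne : (Finset.univ : Finset (Fin n → B)).Nonempty := ⟨w₀, Finset.mem_univ _⟩
    refine ⟨Finset.univ.sup' hne c, ?_, fun w => Finset.le_sup' c (Finset.mem_univ w)⟩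
    rw [Finset.sup'_lt_iff]
    exact fun w _ => hc1 w
  refine ⟨w₀, {x | C < ℓ x}, isOpen_lt continuous_const hcont, ⟨x₀, hx₀, hC1⟩, ?_⟩
  intro w hww x hx hxU
  exact absurd ((hc2 w hww x hx).trans (hC2 w)) (not_le.mpr hxU)

/-- A spectral self-affine measure has no exact overlaps. -/
theorem code_injective (hμ : Spectral μ) (n : ℕ) (w w' : Fin n → B)
    (h : code R (toL w) = code R (toL w')) : w = w' := by
  classical
  by_contra hne
  have hprob := S.prob
  obtain ⟨w₀, U, hU, ⟨x₀, hx₀T, hx₀U⟩, hiso⟩ := S.exists_isolated n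
  set q : ENNReal := ((B.card : ENNReal)⁻¹) ^ n with hq
  set t : Fin d → ℝ := (toReal R)⁻¹ ^ n *ᵥ (vec (code R (toL w)) - vec (code R (toL w₀))) with ht
  have hshift : ∀ x, Phi R (toL w₀) x + t = Phi R (toL w) x := by
    intro x
    simp only [Phi, length_toL, ht]
    rw [← Matrix.mulVec_add]
    congr 1
    abel
  have hww : ∀ x, Phi R (toL w') x = Phi R (toL w) x := by
    intro x
    simp only [Phi, length_toL, h]
  have hzero : μ U = 0 := by
    apply measure_eq_zero_of_spectral hμ hU.measurableSet t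
    rw [Measure.le_iff]
    intro s hs
    have hmeas : Measurable (fun x : Fin d → ℝ => x + t) := measurable_id.add_const t
    rw [Measure.smul_apply, smul_eq_mul, Measure.map_apply hmeas hs,
      Measure.restrict_apply (hmeas hs)]
    have h1 : μ ((fun x => x + t) ⁻¹' s ∩ U) ≤ q * μ (Phi R (toL w) ⁻¹' s) := by
      rw [S.iter_apply n ((hmeas hs).inter hU.measurableSet)]
      rw [Finset.sum_eq_single w₀]
      · gcongr
        intro x hx
        have := hx.1
        simp only [mem_preimage] at this ⊢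
        rwa [hshift] at this
      · intro v _ hv
        have : μ (Phi R (toL v) ⁻¹' ((fun x => x + t) ⁻¹' s ∩ U)) = 0 := by
          apply S.measure_zero_of_disjoint
          intro x hx hx2
          exact hiso v hv x hx hx2.2
        rw [this, mul_zero]
      · intro h; exact absurd (Finset.mem_univ _) h
    have h2 : q * μ (Phi R (toL w) ⁻¹' s) + q * μ (Phi R (toL w') ⁻¹' s) ≤ μ s := by
      rw [S.iter_apply n hs]
      rw [← Finset.sum_pair (f := fun v : Fin n → B => q * μ (Phi R (toL v) ⁻¹' s)) hne]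
      exact Finset.sum_le_sum_of_subset_of_nonneg (Finset.subset_univ _) fun _ _ _ => bot_le
    have h3 : Phi R (toL w') ⁻¹' s = Phi R (toL w) ⁻¹' s := by
      ext x
      simp only [mem_preimage, hww]
    rw [h3, ← two_mul] at h2
    exact (mul_le_mul_right h1 2).trans h2
  exact S.measure_pos hU hx₀T hx₀U hzero

end Setup

end Pool.Agent.V5helper23.Overlap
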