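import Mathlib
import Pool.Agent.V5helper23.Overlap.Exact

/-!
# Without exact overlaps the cylinders of an integral self-affine system are measure disjoint
-/

set_option autoImplicit false

open Matrix Filter Topology MeasureTheory Set

namespace Pool.Agent.V5helper23.Overlap

variable {d : ℕ}

/-- The integer points of a bounded set form a finite set. -/
theorem finite_vec {s : Set (Fin d → ℝ)} (hs : Bornology.IsBounded s) :
    {z : Fin d → ℤ | vec z ∈ s}.Finite := by
  obtain ⟨C, hC⟩ := hs.exists_norm_le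
  have hM : ∃ M : ℤ, C ≤ M := ⟨⌈C⌉, Int.le_ceil C⟩
  obtain ⟨M, hM⟩ := hM
  refine (Set.finite_Icc (fun _ : Fin d => -M) (fun _ => M)).subset ?_
  intro z hz
  have h1 : ‖vec z‖ ≤ M := (hC _ hz).trans hM
  have h2 : ∀ i, |(z i : ℝ)| ≤ M := by
    intro i
    have := norm_le_pi_norm (vec z) i
    rw [Real.norm_eq_abs] at this
    exact this.trans h1
  constructor
  · intro i
    have := (abs_le.mp (h2 i)).1
    exact_mod_cast this
  · intro i
    have := (abs_le.mp (h2 i)).2
    exact_mod_cast this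

namespace Setup

variable {R : Matrix (Fin d) (Fin d) ℤ} {B : Finset (Fin d → ℤ)}
    {μ : Measure (Fin d → ℝ)} {T : Set (Fin d → ℝ)} (S : Setup R B μ T)

include S

theorem one_le_card : 1 ≤ B.card := by
  by_contra h
  have : B.card = 0 := by omega
  exact S.card_ne_zero (by simp [this])

/-- No cylinder is contained in the union of the other cylinders of its level. -/
theorem not_covered (hinj : ∀ (n : ℕ) (w w' : Fin n → B),
    code R (toL w) = code R (toL w') → w = w') (n : ℕ) (w₀ : Fin n → B) :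
    ∃ x ∈ T, ∀ w : Fin n → B, w ≠ w₀ → ∀ y ∈ T, Phi R (toL w₀) x ≠ Phi R (toL w) y := by
  classical
  by_contra hcon
  push Not at hcon
  obtain ⟨x₀, hx₀⟩ := S.ne
  -- the integer vectors of the other words
  let G1 : Finset (Fin d → ℤ) := (Finset.univ.erase w₀).image fun w => code R (toL w)
  have hG1card : G1.card ≤ B.card ^ n - 1 := by
    refine Finset.card_image_le.trans ?_
    rw [Finset.card_erase_of_mem (Finset.mem_univ _), Finset.card_univ, Fintype.card_fun,
      Fintype.card_fin, Fintype.card_coe]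
  have hG1 : ∀ x ∈ T, ∃ g ∈ G1, ∃ y ∈ T, x = (toReal R)⁻¹ ^ n *ᵥ (y + vec g) := by
    intro x hx
    obtain ⟨w, y, hy, rfl⟩ := S.exists_Phi n hx
    by_cases hw : w = w₀
    · subst hw
      obtain ⟨w', hw', z, hz, hzz⟩ := hcon y hy
      refine ⟨code R (toL w'), ?_, z, hz, ?_⟩
      · exact Finset.mem_image_of_mem _ (Finset.mem_erase.mpr ⟨hw', Finset.mem_univ _⟩)
      · rw [hzz]; simp [Phi]
    · refine ⟨code R (toL w), ?_, y, hy, ?_⟩
      · exact Finset.mem_image_of_mem _ (Finset.mem_erase.mpr ⟨hw, Finset.mem_univ _⟩)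
      · simp [Phi]
  have hG : ∀ j : ℕ, ∃ G : Finset (Fin d → ℤ), G.card ≤ (B.card ^ n - 1) ^ j ∧
      ∀ x ∈ T, ∃ g ∈ G, ∃ y ∈ T, x = (toReal R)⁻¹ ^ (n * j) *ᵥ (y + vec g) := by
    intro j
    induction j with
    | zero =>
      refine ⟨{0}, by simp, fun x hx => ⟨0, by simp, x, hx, by simp⟩⟩
    | succ j ih =>
      obtain ⟨G, hGc, hG⟩ := ih
      refine ⟨Finset.image₂ (fun g g1 => g1 + R ^ n *ᵥ g) G G1, ?_, ?_⟩
      · refine (Finset.card_image₂_le _ _ _).trans ?_
        rw [pow_succ]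
        exact Nat.mul_le_mul hGc hG1card
      · intro x hx
        obtain ⟨g, hg, y, hy, rfl⟩ := hG x hx
        obtain ⟨g1, hg1, z, hz, rfl⟩ := hG1 y hy
        refine ⟨_, Finset.mem_image₂_of_mem hg hg1, z, hz, ?_⟩
        rw [mul_add, mul_one, pow_add, ← Matrix.mulVec_mulVec, vec_add, ← add_assoc,
          Matrix.mulVec_add ((toReal R)⁻¹ ^ n) (z + vec g1), inv_pow_mulVec_vec S.exp]
  -- the finite set of small integer vectors
  have hbdd : Bornology.IsBounded ((fun y => y - x₀) '' T) :=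
    (S.cpt.image (continuous_id.sub continuous_const)).isBounded
  let Z : Finset (Fin d → ℤ) := (finite_vec hbdd).toFinset
  have hcount : ∀ j : ℕ, B.card ^ (n * j) ≤ (B.card ^ n - 1) ^ j * Z.card := by
    intro j
    obtain ⟨G, hGc, hG⟩ := hG j
    have h1 : (Finset.univ.image fun w : Fin (n * j) → B => code R (toL w))
        ⊆ Finset.image₂ (fun g z => g + z) G Z := by
      intro c hc
      obtain ⟨w, -, rfl⟩ := Finset.mem_image.mp hc
      obtain ⟨g, hg, y, hy, hxy⟩ := hG _ (S.Phi_mem (mem_toL w) hx₀)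
      have h2 : x₀ + vec (code R (toL w)) = y + vec g := by
        apply inv_pow_mulVec_injective S.exp (n * j)
        simpa [Phi] using hxy
      have h3 : code R (toL w) - g ∈ Z := by
        rw [Set.Finite.mem_toFinset]
        refine ⟨y, hy, ?_⟩
        rw [vec_sub]
        simp only
        rw [sub_eq_sub_iff_add_eq_add, add_comm (vec (code R (toL w))), h2]
      have h4 := Finset.mem_image₂_of_mem (f := fun g z => g + z) hg h3
      simpa using h4
    have h5 := Finset.card_le_card h1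
    rw [Finset.card_image_of_injective _ (fun w w' h => hinj _ w w' h), Finset.card_univ,
      Fintype.card_fun, Fintype.card_fin, Fintype.card_coe] at h5
    refine h5.trans ((Finset.card_image₂_le _ _ _).trans ?_)
    exact Nat.mul_le_mul_right _ hGc
  -- contradiction
  have ha : 1 ≤ B.card ^ n := Nat.one_le_pow _ _ S.one_le_card
  obtain ⟨a, hadef⟩ : ∃ a : ℕ, a = B.card ^ n := ⟨_, rfl⟩
  rw [← hadef] at ha hcount
  have hq : ((a : ℝ) - 1) / a < 1 := by
    rw [div_lt_one (by positivity)]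
    linarith
  have hq0 : 0 ≤ ((a : ℝ) - 1) / a := by
    have : (1 : ℝ) ≤ a := by exact_mod_cast ha
    apply div_nonneg <;> linarith
  obtain ⟨j, hj⟩ := exists_pow_lt_of_lt_one (show (0 : ℝ) < 1 / ((Z.card : ℝ) + 1) by positivity) hq
  have h6 := hcount j
  rw [pow_mul, ← hadef] at h6
  have h7 : (a : ℝ) ^ j ≤ ((a : ℝ) - 1) ^ j * Z.card := by
    have h9 : ((a ^ j : ℕ) : ℝ) ≤ (((a - 1) ^ j * Z.card : ℕ) : ℝ) := Nat.cast_le.mpr h6
    rw [Nat.cast_mul, Nat.cast_pow, Nat.cast_pow, Nat.cast_sub ha, Nat.cast_one] at h9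
    exact h9
  have hapos : (0 : ℝ) < a := by
    have : 0 < a := by omega
    exact_mod_cast this
  rw [div_pow, div_lt_div_iff₀ (by positivity) (by positivity), one_mul] at hj
  have h8 : 0 ≤ ((a : ℝ) - 1) ^ j := by
    apply pow_nonneg
    have : (1 : ℝ) ≤ a := by exact_mod_cast ha
    linarith
  nlinarith

/-- There is a uniform depth at which every cylinder contains a cylinder that is disjoint from all
other cylinders of the first level. -/
theorem exists_depth (hinj : ∀ (n : ℕ) (w w' : Fin n → B),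
    code R (toL w) = code R (toL w') → w = w') :
    ∃ L : ℕ, ∀ (n : ℕ) (w₀ : Fin n → B), ∃ u : Fin L → B, ∀ w : Fin n → B, w ≠ w₀ →
      ∀ x ∈ T, ∀ y ∈ T, Phi R (toL w₀) (Phi R (toL u) x) ≠ Phi R (toL w) y := by
  classical
  have hbdd : Bornology.IsBounded ((fun p : (Fin d → ℝ) × (Fin d → ℝ) => p.1 - p.2) '' (T ×ˢ T)) :=
    ((S.cpt.prod S.cpt).image (continuous_fst.sub continuous_snd)).isBounded
  let Z : Finset (Fin d → ℤ) := (finite_vec hbdd).toFinset
  have hZ : ∀ (z : Fin d → ℤ), ∀ x ∈ T, ∀ y ∈ T, x = y + vec z → z ∈ Z := by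
    intro z x hx y hy h
    rw [Set.Finite.mem_toFinset]
    exact ⟨(x, y), ⟨hx, hy⟩, by simp [h]⟩
  have hF : ∀ F : Finset (Fin d → ℤ), ∃ L₀ : ℕ, (∃ x ∈ T, ∀ m ∈ F, ∀ y ∈ T, x ≠ y + vec m) →
      ∀ L ≥ L₀, ∃ u : Fin L → B, ∀ m ∈ F, ∀ x ∈ T, ∀ y ∈ T, Phi R (toL u) x ≠ y + vec m := by
    intro F
    by_cases hP : ∃ x ∈ T, ∀ m ∈ F, ∀ y ∈ T, x ≠ y + vec m
    · obtain ⟨x, hx, hxF⟩ := hP
      have hclosed : IsClosed (⋃ m ∈ F, (fun y => y + vec m) '' T) := by
        apply Set.Finite.isClosed_biUnion F.finite_toSet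
        intro m _
        exact (S.cpt.image (continuous_id.add continuous_const)).isClosed
      obtain ⟨L₀, hL₀⟩ := S.exists_cylinder hclosed.isOpen_compl hx (by
        simp only [mem_compl_iff, mem_iUnion, mem_image, not_exists, not_and]
        intro m hm y hy h
        exact hxF m hm y hy h.symm)
      refine ⟨L₀, fun _ L hL => ?_⟩
      obtain ⟨u, hu⟩ := hL₀ L hL
      refine ⟨u, fun m hm z hz y hy h => ?_⟩
      apply hu z hz
      simp only [mem_iUnion, mem_image]
      exact ⟨m, hm, y, hy, h.symm⟩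
    · exact ⟨0, fun h => absurd h hP⟩
  choose L₀ hL₀ using hF
  refine ⟨Z.powerset.sup L₀, fun n w₀ => ?_⟩
  let F : Finset (Fin d → ℤ) := Z.filter fun m =>
    ∃ w : Fin n → B, w ≠ w₀ ∧ m = code R (toL w) - code R (toL w₀)
  have hFZ : F ∈ Z.powerset := Finset.mem_powerset.mpr (Finset.filter_subset _ _)
  obtain ⟨x, hx, hxw⟩ := S.not_covered hinj n w₀
  obtain ⟨u, hu⟩ := hL₀ F ⟨x, hx, by
    intro m hm y hy hxy
    obtain ⟨-, w, hw, rfl⟩ := Finset.mem_filter.mp hm
    apply hxw w hw y hy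
    rw [hxy, Phi_shift (by simp)]⟩ _ (Finset.le_sup hFZ)
  refine ⟨u, fun w hw z hz y hy h => ?_⟩
  have h1 : Phi R (toL u) z = y + vec (code R (toL w) - code R (toL w₀)) := by
    apply Phi_injective S.exp (toL w₀)
    rw [h, Phi_shift (by simp)]
  have h2 := hZ _ _ (S.Phi_mem (mem_toL u) hz) y hy h1
  exact hu _ (Finset.mem_filter.mpr ⟨h2, w, hw, rfl⟩) z hz y hy h1

/-- Without exact overlaps the pieces of the attractor are measure disjoint. -/
theorem measure_overlap_zero (hinj : ∀ (n : ℕ) (w w' : Fin n → B),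
    code R (toL w) = code R (toL w') → w = w') (b b' : B) (hbb : b ≠ b') :
    μ (phi R b '' T ∩ phi R b' '' T) = 0 := by
  classical
  have hprob := S.prob
  obtain ⟨L, hL⟩ := S.exists_depth hinj
  set K : Set (Fin d → ℝ) := phi R b '' T ∩ phi R b' '' T with hK
  have hKc : IsCompact K :=
    (S.cpt.image (continuous_phi _)).inter (S.cpt.image (continuous_phi _))
  have hKm : MeasurableSet K := hKc.isClosed.measurableSet
  -- the supremum over all nonempty words
  let W : Set (List (Fin d → ℤ)) := {l | l ≠ [] ∧ ∀ c ∈ l, c ∈ B}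
  let s : ENNReal := ⨆ l ∈ W, μ (Phi R l ⁻¹' K)
  have hs1 : s ≤ 1 := iSup₂_le fun l _ => prob_le_one
  have hle : ∀ l ∈ W, μ (Phi R l ⁻¹' K) ≤ s := fun l hl =>
    le_iSup₂ (f := fun (l : List (Fin d → ℤ)) (_ : l ∈ W) => μ (Phi R l ⁻¹' K)) l hl
  set q : ENNReal := ((B.card : ENNReal)⁻¹) ^ L with hqdef
  have hq0 : q ≠ 0 := by
    rw [hqdef]
    exact pow_ne_zero _ (ENNReal.inv_ne_zero.mpr (ENNReal.natCast_ne_top _))
  have hq1 : q ≤ 1 := by
    rw [hqdef]
    apply pow_le_one₀ bot_le
    rw [ENNReal.inv_le_one]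
    exact_mod_cast S.one_le_card
  have hkey : ∀ l ∈ W, μ (Phi R l ⁻¹' K) + q * s ≤ s := by
    intro l hl
    obtain ⟨hne, hlB⟩ := hl
    obtain ⟨c, l', rfl⟩ := List.exists_cons_of_ne_nil hne
    obtain ⟨w, hw⟩ := exists_toL (B := B) (c :: l') hlB
    have hlen : (c :: l').length = l'.length + 1 := rfl
    -- one of the two digits differs from the first letter
    have hdiff : ∃ a : B, a.1 ≠ c ∧ K ⊆ phi R a '' T := by
      by_cases h : b.1 = c
      · refine ⟨b', fun h' => hbb (Subtype.ext (h.trans h'.symm)), inter_subset_right⟩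
      · exact ⟨b, h, inter_subset_left⟩
    obtain ⟨a, hac, hKa⟩ := hdiff
    obtain ⟨u, hu⟩ := hL (l'.length + 1) w
    have hzero : μ (Phi R (toL u) ⁻¹' (Phi R (c :: l') ⁻¹' K)) = 0 := by
      apply S.measure_zero_of_disjoint
      intro x hx hxK
      have h1 : Phi R (c :: l') (Phi R (toL u) x) ∈ K := hxK
      obtain ⟨z, hz, hzz⟩ := hKa h1
      obtain ⟨v, y, hy, rfl⟩ := S.exists_Phi l'.length hz
      have h2 : Phi R (toL w) (Phi R (toL u) x)
          = Phi R (toL (Fin.cons a v : Fin (l'.length + 1) → B)) y := by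
        rw [toL_cons, Phi_cons S.exp, hzz, hw]
      refine hu (Fin.cons a v : Fin (l'.length + 1) → B) ?_ x hx y hy h2
      intro h3
      have h4 : toL w = a.1 :: toL v := by
        rw [← h3, toL_cons]
      rw [hw] at h4
      exact hac (List.cons.inj h4).1.symm
    have hexp := S.iter_apply L ((continuous_Phi (R := R) (c :: l')).measurable hKm)
    rw [← Finset.sum_erase_add _ _ (Finset.mem_univ u), hzero, mul_zero, add_zero] at hexp
    rw [hexp]
    calc _ ≤ (∑ _u' ∈ Finset.univ.erase u, q * s) + q * s := by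
          gcongr with u' _
          have h5 : Phi R (toL u') ⁻¹' (Phi R (c :: l') ⁻¹' K)
              = Phi R ((c :: l') ++ toL u') ⁻¹' K := by
            ext x
            simp only [mem_preimage]
            rw [Phi_append S.exp]
          rw [h5]
          apply hle
          refine ⟨by simp, ?_⟩
          intro e he
          rcases List.mem_append.mp he with h | h
          · exact hlB e h
          · exact mem_toL u' e h
      _ = ∑ _u' : Fin L → B, q * s := Finset.sum_erase_add _ _ (Finset.mem_univ u)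
      _ = s := S.card_words_mul L s
  have hs0 : s = 0 := by
    by_contra hs
    have hstop : s ≠ ⊤ := ne_top_of_le_ne_top ENNReal.one_ne_top hs1
    have h1 : s ≤ s - q * s := by
      apply iSup₂_le
      intro l hl
      exact ENNReal.le_sub_of_add_le_right (ENNReal.mul_ne_top
        (ne_top_of_le_ne_top ENNReal.one_ne_top hq1) hstop) (hkey l hl)
    have h2 : s - q * s < s := ENNReal.sub_lt_self hstop hs (mul_ne_zero hq0 hs)
    exact absurd h1 (not_le.mpr h2)
  have hfin := S.inv_apply hKm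
  rw [hfin]
  apply Finset.sum_eq_zero
  intro c _
  have h1 : μ (phi R c ⁻¹' K) ≤ s := by
    have h2 : phi R c ⁻¹' K = Phi R [c.1] ⁻¹' K := by
      ext x
      simp only [mem_preimage]
      rw [Phi_singleton S.exp]
    rw [h2]
    exact hle _ ⟨by simp, by simp⟩
  rw [hs0] at h1
  rw [le_antisymm h1 bot_le, mul_zero]

end Setup

end Pool.Agent.V5helper23.Overlap
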